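import Pool.Agent.W619.Y.Stm

/-! Project PG, part EQV (helper253): equivariant families. -/

set_option autoImplicit false

universe u

namespace Pool.Agent.W253.PG.EQV

open Pool.Agent.W619.Y

theorem main : S_EQV.{u} := by
  intro Γ _ n σ α _ R h1 h2 h3
  choose a0 ha0 using h3
  let r : Setoid (Fin n) :=
    { r := fun i j => ∃ g : Γ, σ g i = j
      iseqv :=
        { refl := fun i => ⟨1, by simp⟩
          symm := by
            rintro i j ⟨g, rfl⟩
            exact ⟨g⁻¹, by rw [← Equiv.Perm.mul_apply, ← map_mul]; simp⟩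
          trans := by
            rintro i j k ⟨g, rfl⟩ ⟨g', rfl⟩
            exact ⟨g' * g, by rw [map_mul, Equiv.Perm.mul_apply]⟩ } }
  let rep : Fin n → Fin n := fun i => (Quotient.mk r i).out
  have hrep : ∀ i, ∃ g : Γ, σ g (rep i) = i := fun i =>
    Quotient.exact (Quotient.out_eq (Quotient.mk r i))
  have hr : ∀ (g : Γ) (i : Fin n), rep (σ g i) = rep i := by
    intro g i
    have h : Quotient.mk r (σ g i) = Quotient.mk r i := by
      refine Quotient.sound ?_
      exact r.iseqv.symm ⟨g, rfl⟩
    show (Quotient.mk r (σ g i)).out = (Quotient.mk r i).out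
    rw [h]
  choose gi hgi using hrep
  refine ⟨fun i => gi i • a0 (rep i), fun i => ?_, fun g i => ?_⟩
  · have := h1 (gi i) (rep i) _ (ha0 _)
    rwa [hgi] at this
  · show g • gi i • a0 (rep i) = gi (σ g i) • a0 (rep (σ g i))
    rw [hr]
    have h4 : σ ((gi (σ g i))⁻¹ * g * gi i) (rep i) = rep i := by
      rw [map_mul, map_mul, Equiv.Perm.mul_apply, Equiv.Perm.mul_apply, hgi, map_inv,
        Equiv.Perm.inv_eq_iff_eq]
      have := hgi (σ g i)
      rw [hr] at this
      exact this.symm
    have h5 := h2 (rep i) (a0 (rep i)) (ha0 _) _ h4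
    calc g • gi i • a0 (rep i)
        = gi (σ g i) • ((gi (σ g i))⁻¹ * g * gi i) • a0 (rep i) := by
          rw [← mul_smul, ← mul_smul, mul_assoc, mul_inv_cancel_left]
      _ = gi (σ g i) • a0 (rep i) := by rw [h5]

end Pool.Agent.W253.PG.EQV
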